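import Pool.Agent.K3h46.FP.Main

/-!
# The lower bound from flags, for dense portions of several classes per modulus
-/

set_option autoImplicit false

open Finset

namespace Pool.Agent.K3h46.FP

open Pool.Agent.K3h46.MU (starts prog_moment Bound)

/-- the inequality for the number of flags -/
theorem main_ineq {S : Finset ℚ} {κ : ℝ} (h1 : 1 < κ) (h2 : κ ≤ 2) (hS : (-1 : ℚ) ∉ S)
    (hB : Bound S κ) (lam : ℝ) (hlam : 0 < lam) : ∃ (c C : ℝ), 0 < c ∧ 2 ≤ C ∧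
      ∀ N Q : ℕ, 1 ≤ Q → C * Q ≤ N → N ≤ Q * Q → ∀ E ⊆ Icc 1 N, ∀ P ⊆ Ico Q (2 * Q),
      (∀ p ∈ P, p.Prime) → ∀ (R : ℕ → Finset ℕ) (m : ℕ),
      (∀ q ∈ P, (R q).card = m ∧ ∀ r ∈ R q, r < q ∧ lam * N / q ≤ ((cls E q r).card : ℝ)) →
      c * (N / Q) * P.card * m ≤ E.card ∨
      c * ((N : ℝ) / Q) ^ 3 * (P.card : ℝ) ^ 2 * (m : ℝ) ^ 2 ≤ (E.card : ℝ) * ((m : ℝ) ^ (3 - κ) *
        (((E.card : ℝ) * P.card) ^ (2 - κ) *
          ((E.card : ℝ) * (E.card + P.card)) ^ (κ - 1))) := by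
  classical
  obtain ⟨k, hk1, hprog⟩ := prog_moment h1 h2 hS hB
  obtain ⟨c₁, M₀, hc₁, hmany⟩ := many_starts k (lam / 4) (by positivity)
  obtain ⟨K, hK⟩ : ∃ K : ℝ, K = (k : ℝ) ^ κ * k := ⟨_, rfl⟩
  have hk0 : (0 : ℝ) < k := by exact_mod_cast hk1
  have hK0 : 0 < K := by rw [hK]; positivity
  obtain ⟨c, hc⟩ : ∃ c : ℝ, c = min (c₁ / 2) (c₁ ^ 3 / (2 * K)) := ⟨_, rfl⟩
  have hc0 : 0 < c := by rw [hc]; exact lt_min (by positivity) (by positivity)
  refine ⟨c, (M₀ : ℝ) + k + 2, hc0, by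
    have : (0 : ℝ) ≤ M₀ := Nat.cast_nonneg _
    linarith, fun N Q hQ hCN hNQ E hE P hPQ hPp R m hR => ?_⟩
  have hQ0 : (0 : ℝ) < Q := by exact_mod_cast hQ
  have hCN' : (M₀ + k + 2) * Q ≤ N := by exact_mod_cast hCN
  have h2N : 2 * Q ≤ N := by nlinarith
  have hkQ : k < Q := by
    have h3 : (M₀ + k + 2) * Q ≤ Q * Q := hCN'.trans hNQ
    have h4 : M₀ + k + 2 ≤ Q := Nat.le_of_mul_le_mul_right h3 (by omega)
    omega
  have hpq : ∀ p ∈ P, ∀ q ∈ P, N ≤ p * q := by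
    intro p hp q hq
    have a1 := (mem_Ico.1 (hPQ hp)).1
    have a2 := (mem_Ico.1 (hPQ hq)).1
    exact hNQ.trans (Nat.mul_le_mul a1 a2)
  have hkp : ∀ p ∈ P, k < p := by
    intro p hp
    have := (mem_Ico.1 (hPQ hp)).1
    omega
  obtain ⟨M, hM⟩ : ∃ M : ℕ, M = N / Q + 2 := ⟨_, rfl⟩
  have hMM : M₀ ≤ M := by
    have h3 : M₀ ≤ N / Q := by
      rw [Nat.le_div_iff_mul_le (by omega)]
      nlinarith
    rw [hM]
    exact h3.trans (Nat.le_add_right _ _)
  have hMr : (N : ℝ) / Q ≤ M := by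
    rw [div_le_iff₀ hQ0]
    have h3 : N < (N / Q + 1) * Q := by
      have := Nat.lt_mul_div_succ N (show 0 < Q by omega)
      rw [mul_comm]
      exact this
    have h4 : N ≤ M * Q := by
      rw [hM]
      calc N ≤ (N / Q + 1) * Q := h3.le
        _ ≤ (N / Q + 2) * Q := Nat.mul_le_mul_right _ (by omega)
    exact_mod_cast h4
  have hX0 : 0 ≤ (N : ℝ) / Q := by positivity
  -- trivial cases
  rcases Nat.eq_zero_or_pos P.card with hP0 | hP0
  · left
    rw [hP0]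
    simp
  rcases Nat.eq_zero_or_pos m with hm0 | hm0
  · left
    rw [hm0]
    simp
  have hP0r : (0 : ℝ) < P.card := by exact_mod_cast hP0
  have hm0r : (0 : ℝ) < m := by exact_mod_cast hm0
  have hM0 : (0 : ℝ) < M := by
    have : 0 < M := by rw [hM]; exact Nat.succ_pos _
    exact_mod_cast this
  obtain ⟨ρ, hρ⟩ : ∃ ρ : ℕ → ℝ, ∀ x, ρ x = ((QQ k M c₁ E P R x).card : ℝ) := ⟨_, fun _ => rfl⟩
  obtain ⟨s, hs⟩ : ∃ s : ℝ, s = ∑ x ∈ E, ρ x := ⟨_, rfl⟩
  have hslow : c₁ * M * m * P.card ≤ s := by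
    have e1 : s = ∑ q ∈ P, ∑ r ∈ R q, ((St k M c₁ E q r).card : ℝ) := by
      rw [hs, sum_congr rfl fun x _ => hρ x]
      exact_mod_cast sum_QQ (k := k) (M := M) (c := c₁) (E := E) (P := P) (R := R)
    rw [e1]
    calc c₁ * M * m * P.card = ∑ _q ∈ P, (m * (c₁ * M)) := by
          rw [sum_const, nsmul_eq_mul]; ring
      _ ≤ ∑ q ∈ P, ∑ r ∈ R q, ((St k M c₁ E q r).card : ℝ) := by
          refine sum_le_sum fun q hq => ?_
          have a := mem_Ico.1 (hPQ hq)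
          calc (m : ℝ) * (c₁ * M) = ∑ _r ∈ R q, (c₁ * M) := by
                rw [sum_const, nsmul_eq_mul, (hR q hq).1]
            _ ≤ _ := by
                refine sum_le_sum fun r hr => ?_
                exact st_card hc₁ (fun H hH hHc => hmany M hMM H hH hHc) hlam hQ hM h2N hE a.1 a.2
                  ((hR q hq).2 r hr).1 ((hR q hq).2 r hr).2
  have hs0 : 0 < s := lt_of_lt_of_le (by positivity) hslow
  have hE0 : 0 < E.card := by
    rw [card_pos]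
    by_contra hcon
    rw [not_nonempty_iff_eq_empty] at hcon
    rw [hs, hcon, sum_empty] at hs0
    exact lt_irrefl _ hs0
  have hE0r : (0 : ℝ) < E.card := by exact_mod_cast hE0
  rcases le_or_gt s (2 * E.card) with hcase | hcase
  · -- the first alternative
    left
    have hcc : c ≤ c₁ / 2 := by rw [hc]; exact min_le_left _ _
    calc c * (N / Q) * P.card * m ≤ c₁ / 2 * M * P.card * m := by gcongr
      _ = (c₁ * M * m * P.card) / 2 := by ring
      _ ≤ s / 2 := by gcongr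
      _ ≤ E.card := by linarith
  · right
    have hCS : s ^ 2 ≤ E.card * ∑ x ∈ E, (ρ x) ^ 2 := by
      rw [hs]
      exact sq_sum_le_card_mul_sum_sq
    have hlow : s ^ 2 / (2 * E.card) ≤ ∑ x ∈ E, ρ x * (ρ x - 1) := by
      have e1 : ∑ x ∈ E, ρ x * (ρ x - 1) = ∑ x ∈ E, (ρ x) ^ 2 - s := by
        rw [hs, ← sum_sub_distrib]
        refine sum_congr rfl fun x _ => ?_
        ring
      rw [e1]
      have h3 : s ^ 2 / E.card ≤ ∑ x ∈ E, (ρ x) ^ 2 := by
        rw [div_le_iff₀ hE0r]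
        linarith
      have h4 : s ≤ s ^ 2 / (2 * E.card) := by
        rw [le_div_iff₀ (by positivity)]
        nlinarith
      have h5 : s ^ 2 / (2 * E.card) = s ^ 2 / E.card / 2 := by
        rw [div_div]
        congr 1
        ring
      rw [h5] at h4 ⊢
      linarith
    have hfl := flags_ge (k := k) (M := M) (c := c₁) E P R
    rw [← sum_congr rfl fun x _ => by rw [← hρ]] at hfl
    have hup : ∑ p ∈ P, ∑ b ∈ R p, ((flags k M E P R p b).card : ℝ) ≤
        (m : ℝ) ^ (3 - κ) * (K * (((E.card : ℝ) * P.card) ^ (2 - κ) *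
          ((E.card : ℝ) * (E.card + P.card)) ^ (κ - 1))) := by
      have hstem : ∀ p ∈ P, ∀ b ∈ R p, ((flags k M E P R p b).card : ℝ) ≤
          (m : ℝ) ^ (2 - κ) * (K * ∑ ρ ∈ range p, ((cls E p ρ).card : ℝ) ^ κ) := by
        intro p hp b _
        have h3 := stem_bound h1 h2 hk1 hprog (M := M) hE hPp hpq hkp
          (fun q hq => (hR q hq).1.le) hp b
        refine h3.trans (le_of_eq ?_)
        rw [hK]
        ring
      calc ∑ p ∈ P, ∑ b ∈ R p, ((flags k M E P R p b).card : ℝ) ≤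
            ∑ p ∈ P, ∑ _b ∈ R p, (m : ℝ) ^ (2 - κ) *
              (K * ∑ ρ ∈ range p, ((cls E p ρ).card : ℝ) ^ κ) :=
            sum_le_sum fun p hp => sum_le_sum fun b hb => hstem p hp b hb
        _ = ∑ p ∈ P, (m : ℝ) * ((m : ℝ) ^ (2 - κ) *
              (K * ∑ ρ ∈ range p, ((cls E p ρ).card : ℝ) ^ κ)) := by
            refine sum_congr rfl fun p hp => ?_
            rw [sum_const, nsmul_eq_mul, (hR p hp).1]
        _ = (m : ℝ) ^ (3 - κ) * (K * ∑ p ∈ P, ∑ ρ ∈ range p, ((cls E p ρ).card : ℝ) ^ κ) := by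
            have e2 : (m : ℝ) ^ (3 - κ) = m * (m : ℝ) ^ (2 - κ) := by
              have : 3 - κ = 1 + (2 - κ) := by ring
              rw [this, Real.rpow_add hm0r, Real.rpow_one]
            rw [e2, mul_sum, mul_sum]
            refine sum_congr rfl fun p _ => ?_
            ring
        _ ≤ _ := by
            gcongr
            exact kappa_moment h1 h2 hE hPp hpq hE0 hP0
    -- all together
    have hall : c₁ * M * (s ^ 2 / (2 * E.card)) ≤ (m : ℝ) ^ (3 - κ) *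
        (K * (((E.card : ℝ) * P.card) ^ (2 - κ) *
          ((E.card : ℝ) * (E.card + P.card)) ^ (κ - 1))) := by
      refine le_trans ?_ (hfl.trans hup)
      gcongr
    have hsX : c₁ * (N / Q) * m * P.card ≤ s := by
      refine le_trans ?_ hslow
      gcongr
    have h6 : c₁ * (N / Q) * ((c₁ * (N / Q) * m * P.card) ^ 2 / (2 * E.card)) ≤
        (m : ℝ) ^ (3 - κ) * (K * (((E.card : ℝ) * P.card) ^ (2 - κ) *
          ((E.card : ℝ) * (E.card + P.card)) ^ (κ - 1))) := by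
      refine le_trans ?_ hall
      gcongr
    have hcc : c ≤ c₁ ^ 3 / (2 * K) := by rw [hc]; exact min_le_right _ _
    have h7 : c₁ ^ 3 / (2 * K) * ((N : ℝ) / Q) ^ 3 * (P.card : ℝ) ^ 2 * (m : ℝ) ^ 2 =
        E.card / K * (c₁ * (N / Q) * ((c₁ * (N / Q) * m * P.card) ^ 2 / (2 * E.card))) := by
      field_simp
    calc c * ((N : ℝ) / Q) ^ 3 * (P.card : ℝ) ^ 2 * (m : ℝ) ^ 2 ≤
          c₁ ^ 3 / (2 * K) * ((N : ℝ) / Q) ^ 3 * (P.card : ℝ) ^ 2 * (m : ℝ) ^ 2 := by gcongr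
      _ = E.card / K * (c₁ * (N / Q) * ((c₁ * (N / Q) * m * P.card) ^ 2 / (2 * E.card))) := h7
      _ ≤ E.card / K * ((m : ℝ) ^ (3 - κ) * (K * (((E.card : ℝ) * P.card) ^ (2 - κ) *
          ((E.card : ℝ) * (E.card + P.card)) ^ (κ - 1)))) := by gcongr
      _ = _ := by field_simp

/-- the explicit bound -/
theorem explicit {n X B m κ c : ℝ} (h1 : 1 < κ) (h2 : κ ≤ 2) (hn : 0 < n) (hX : 0 < X) (hB : 0 < B)
    (hm : 0 < m) (hc : 0 < c)
    (h : c * X ^ 3 * B ^ 2 * m ^ 2 ≤ n * (m ^ (3 - κ) * ((n * B) ^ (2 - κ) *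
      (n * (n + B)) ^ (κ - 1)))) :
    (c / 2 * (X ^ 3 * B ^ κ * m ^ (κ - 1))) ^ (1 / (1 + κ)) ≤ n ∨
      (c / 2 * (X ^ 3 * B * m ^ (κ - 1))) ^ (1 / 2 : ℝ) ≤ n := by
  have hκ : 0 < κ - 1 := by linarith
  have h2κ : (2 : ℝ) ^ (κ - 1) ≤ 2 := by
    calc (2 : ℝ) ^ (κ - 1) ≤ 2 ^ (1 : ℝ) :=
          Real.rpow_le_rpow_of_exponent_le (by norm_num) (by linarith)
      _ = 2 := Real.rpow_one 2
  have hm2 : m ^ (2 : ℕ) = m ^ (3 - κ) * m ^ (κ - 1) := by
    rw [← Real.rpow_add hm, ← Real.rpow_natCast]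
    congr 1
    push_cast
    ring
  have hB2 : B ^ (2 : ℕ) = B ^ (2 - κ) * B ^ κ := by
    rw [← Real.rpow_add hB, ← Real.rpow_natCast]
    congr 1
    push_cast
    ring
  have hm3 : 0 < m ^ (3 - κ) := by positivity
  rcases le_total B n with hBn | hBn
  · left
    have h3 : (n * (n + B)) ^ (κ - 1) ≤ 2 * (n ^ (κ - 1) * n ^ (κ - 1)) := by
      calc (n * (n + B)) ^ (κ - 1) ≤ (2 * (n * n)) ^ (κ - 1) := by
            apply Real.rpow_le_rpow (by positivity) _ hκ.le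
            nlinarith
        _ = 2 ^ (κ - 1) * (n ^ (κ - 1) * n ^ (κ - 1)) := by
            rw [Real.mul_rpow (by norm_num) (by positivity), Real.mul_rpow hn.le hn.le]
        _ ≤ _ := by gcongr
    have h4 : n * ((n * B) ^ (2 - κ) * (n ^ (κ - 1) * n ^ (κ - 1))) = n ^ (1 + κ) * B ^ (2 - κ) := by
      rw [Real.mul_rpow hn.le hB.le]
      have e : n ^ (1 + κ) = n * (n ^ (2 - κ) * (n ^ (κ - 1) * n ^ (κ - 1))) := by
        rw [← Real.rpow_add hn, ← Real.rpow_add hn]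
        nth_rewrite 2 [← Real.rpow_one n]
        rw [← Real.rpow_add hn]
        congr 1
        ring
      rw [e]
      ring
    have h5 : c / 2 * (X ^ 3 * B ^ κ * m ^ (κ - 1)) ≤ n ^ (1 + κ) := by
      have h6 : (m ^ (3 - κ) * B ^ (2 - κ)) * (c / 2 * (X ^ 3 * B ^ κ * m ^ (κ - 1))) ≤
          (m ^ (3 - κ) * B ^ (2 - κ)) * n ^ (1 + κ) := by
        calc (m ^ (3 - κ) * B ^ (2 - κ)) * (c / 2 * (X ^ 3 * B ^ κ * m ^ (κ - 1))) =
              (c * X ^ 3 * B ^ 2 * m ^ 2) / 2 := by rw [hm2, hB2]; ring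
          _ ≤ (n * (m ^ (3 - κ) * ((n * B) ^ (2 - κ) * (n * (n + B)) ^ (κ - 1)))) / 2 := by gcongr
          _ ≤ (n * (m ^ (3 - κ) * ((n * B) ^ (2 - κ) *
                (2 * (n ^ (κ - 1) * n ^ (κ - 1)))))) / 2 := by gcongr
          _ = m ^ (3 - κ) * (n * ((n * B) ^ (2 - κ) * (n ^ (κ - 1) * n ^ (κ - 1)))) := by ring
          _ = _ := by rw [h4]; ring
      exact le_of_mul_le_mul_left h6 (by positivity)
    have h6 := Real.rpow_le_rpow (by positivity) h5 (show 0 ≤ 1 / (1 + κ) by positivity)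
    rwa [← Real.rpow_mul hn.le, mul_one_div_cancel (by positivity), Real.rpow_one] at h6
  · right
    have h3 : (n * (n + B)) ^ (κ - 1) ≤ 2 * (n * B) ^ (κ - 1) := by
      calc (n * (n + B)) ^ (κ - 1) ≤ (2 * (n * B)) ^ (κ - 1) := by
            apply Real.rpow_le_rpow (by positivity) _ hκ.le
            nlinarith
        _ = 2 ^ (κ - 1) * (n * B) ^ (κ - 1) := by
            rw [Real.mul_rpow (by norm_num) (by positivity)]
        _ ≤ _ := by gcongr
    have h4 : (n * B) ^ (2 - κ) * (n * B) ^ (κ - 1) = n * B := by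
      rw [← Real.rpow_add (by positivity)]
      have : 2 - κ + (κ - 1) = 1 := by ring
      rw [this, Real.rpow_one]
    have h5 : c / 2 * (X ^ 3 * B * m ^ (κ - 1)) ≤ n ^ (2 : ℝ) := by
      have h6 : (m ^ (3 - κ) * B) * (c / 2 * (X ^ 3 * B * m ^ (κ - 1))) ≤
          (m ^ (3 - κ) * B) * n ^ (2 : ℝ) := by
        have e2 : n ^ (2 : ℝ) = n ^ 2 := by
          rw [← Real.rpow_natCast]
          norm_num
        calc (m ^ (3 - κ) * B) * (c / 2 * (X ^ 3 * B * m ^ (κ - 1))) =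
              (c * X ^ 3 * B ^ 2 * m ^ 2) / 2 := by rw [hm2]; ring
          _ ≤ (n * (m ^ (3 - κ) * ((n * B) ^ (2 - κ) * (n * (n + B)) ^ (κ - 1)))) / 2 := by gcongr
          _ ≤ (n * (m ^ (3 - κ) * ((n * B) ^ (2 - κ) * (2 * (n * B) ^ (κ - 1))))) / 2 := by gcongr
          _ = m ^ (3 - κ) * n * ((n * B) ^ (2 - κ) * (n * B) ^ (κ - 1)) := by ring
          _ = _ := by rw [h4, e2]; ring
      exact le_of_mul_le_mul_left h6 (by positivity)
    have h6 := Real.rpow_le_rpow (by positivity) h5 (show (0 : ℝ) ≤ 1 / 2 by norm_num)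
    rwa [← Real.rpow_mul hn.le, mul_one_div_cancel (by norm_num), Real.rpow_one] at h6

end Pool.Agent.K3h46.FP
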