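import Pool.Agent.K3h46.FP.Second
import Pool.Agent.K3h46.RB.Portions

/-!
# Flags for dense portions of residue classes
-/

set_option autoImplicit false

open Finset

namespace Pool.Agent.K3h46.FP

open Pool.Agent.K3h46.MU (starts prog_moment fst fst_mod fst_ge fst_lt win Bound)
open Pool.Agent.K3h46.RB (exists_index)

open Classical in
/-- the elements of the class at which many progressions start -/
noncomputable def St (k M : ℕ) (c : ℝ) (E : Finset ℕ) (q r : ℕ) : Finset ℕ :=
  (cls E q r).filter fun x => c * M ≤ ((JJ k M E q x).card : ℝ)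

/-- a dense portion of a class has many such elements -/
theorem st_card {k N Q M : ℕ} {c lam : ℝ} (hc : 0 < c)
    (hmany : ∀ H : Finset ℕ, H ⊆ range M → lam / 4 * M ≤ H.card →
      c * M ≤ ((range M).filter fun x => c * M ≤ ((dif k M H x).card : ℝ)).card)
    (hlam : 0 < lam) (hQ : 1 ≤ Q) (hM : M = N / Q + 2) (hNQ : 2 * Q ≤ N) {E : Finset ℕ}
    (hE : E ⊆ Icc 1 N) {q r : ℕ} (hq1 : Q ≤ q) (hq2 : q < 2 * Q) (hr : r < q)
    (hd : lam * N / q ≤ ((cls E q r).card : ℝ)) : c * M ≤ ((St k M c E q r).card : ℝ) := by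
  classical
  have hq0 : 0 < q := by omega
  have hq0r : (0 : ℝ) < q := by exact_mod_cast hq0
  have hQ0 : (0 : ℝ) < Q := by exact_mod_cast hQ
  have hM1 : 1 ≤ M := by rw [hM]; exact Nat.succ_pos _
  have hNM : N ≤ (M - 1) * q := by
    have h1 : N < (N / Q + 1) * Q := by
      have := Nat.lt_mul_div_succ N (show 0 < Q by omega)
      rw [mul_comm]
      exact this
    have h2 : M - 1 = N / Q + 1 := by rw [hM]; rfl
    rw [h2]
    calc N ≤ (N / Q + 1) * Q := h1.le
      _ ≤ (N / Q + 1) * q := Nat.mul_le_mul_left _ hq1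
  obtain ⟨f, hf⟩ : ∃ f : ℕ, f = fst N q r 0 := ⟨_, rfl⟩
  have hfmod : f % q = r := by rw [hf]; exact fst_mod hq0 hr
  obtain ⟨H, hH⟩ : ∃ H : Finset ℕ, H = (range M).filter fun i => f + i * q ∈ E := ⟨_, rfl⟩
  have hHM : H ⊆ range M := by rw [hH]; exact filter_subset _ _
  have hcls : (cls E q r).card ≤ H.card := by
    have hsub : cls E q r ⊆ H.image fun i => f + i * q := by
      intro n hn
      unfold cls at hn
      rw [mem_filter] at hn
      have h1 : n ∈ win N 0 := by
        have := hE hn.1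
        unfold win
        simpa using this
      obtain ⟨i, hi, hni⟩ := exists_index hq0 hr hNM hM1 h1 hn.2
      rw [mem_image]
      refine ⟨i, ?_, ?_⟩
      · rw [hH, mem_filter, mem_range, hf, ← hni]
        exact ⟨hi, hn.1⟩
      · rw [hf]; exact hni.symm
    exact (card_le_card hsub).trans card_image_le
  have hdens : lam / 4 * M ≤ H.card := by
    have h1 : (M : ℝ) ≤ 2 * (N / Q : ℝ) := by
      have h2 : ((N / Q : ℕ) : ℝ) ≤ (N : ℝ) / Q := Nat.cast_div_le
      have h3 : (2 : ℝ) ≤ (N : ℝ) / Q := by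
        rw [le_div_iff₀ hQ0]
        exact_mod_cast hNQ
      rw [hM]
      push_cast
      linarith
    have h4 : lam / 4 * M ≤ lam * N / q := by
      rw [le_div_iff₀ hq0r]
      have hq2r : (q : ℝ) ≤ 2 * Q := by exact_mod_cast hq2.le
      calc lam / 4 * M * q ≤ lam / 4 * (2 * (N / Q)) * (2 * Q) := by gcongr
        _ = lam * N := by field_simp; ring
    exact h4.trans (hd.trans (by exact_mod_cast hcls))
  have h5 := hmany H hHM hdens
  refine h5.trans ?_
  norm_cast
  apply card_le_card_of_injOn (fun i => f + i * q)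
  · intro i hi
    rw [mem_coe, mem_filter, mem_range] at hi
    have hM0 : (0 : ℝ) < M := by exact_mod_cast hM1
    have hne : (dif k M H i).Nonempty := by
      rw [← card_pos]
      have : (0 : ℝ) < (dif k M H i).card := lt_of_lt_of_le (by positivity) hi.2
      exact_mod_cast this
    obtain ⟨d₀, hd₀⟩ := hne
    have hiH : i ∈ H := by
      unfold dif at hd₀
      rw [mem_filter] at hd₀
      have := hd₀.2 0 (by omega)
      simpa using this
    have hsub : dif k M H i ⊆ JJ k M E q (f + i * q) := by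
      intro d hd1
      unfold dif at hd1
      rw [mem_filter] at hd1
      unfold JJ
      rw [mem_filter]
      refine ⟨hd1.1, fun j hj => ?_⟩
      have h6 := hd1.2 j hj
      rw [hH, mem_filter] at h6
      have e : f + i * q + j * (d * q) = f + (i + j * d) * q := by ring
      rw [e]
      exact h6.2
    rw [mem_coe]
    unfold St cls
    rw [mem_filter, mem_filter]
    rw [hH, mem_filter] at hiH
    refine ⟨⟨hiH.2, ?_⟩, hi.2.trans (by exact_mod_cast card_le_card hsub)⟩
    rw [Nat.add_mul_mod_self_right]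
    exact hfmod
  · intro i _ i' _ h
    simp only at h
    have : i * q = i' * q := by omega
    exact Nat.eq_of_mul_eq_mul_right hq0 this

open Classical in
/-- the moduli with `x` in the good part of a chosen class -/
noncomputable def QQ (k M : ℕ) (c : ℝ) (E P : Finset ℕ) (R : ℕ → Finset ℕ) (x : ℕ) : Finset ℕ :=
  P.filter fun q => x % q ∈ R q ∧ c * M ≤ ((JJ k M E q x).card : ℝ)

/-- the number of all incidences -/
theorem sum_QQ {k M : ℕ} {c : ℝ} {E P : Finset ℕ} {R : ℕ → Finset ℕ} :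
    ∑ x ∈ E, (QQ k M c E P R x).card = ∑ q ∈ P, ∑ r ∈ R q, (St k M c E q r).card := by
  classical
  have h1 := Finset.sum_card_bipartiteAbove_eq_sum_card_bipartiteBelow
    (fun (x q : ℕ) => x % q ∈ R q ∧ c * M ≤ ((JJ k M E q x).card : ℝ)) (s := E) (t := P)
  have h2 : ∀ x ∈ E, (QQ k M c E P R x).card = (bipartiteAbove
      (fun (x q : ℕ) => x % q ∈ R q ∧ c * M ≤ ((JJ k M E q x).card : ℝ)) P x).card := fun x _ => by
    unfold QQ bipartiteAbove
    congr
  rw [sum_congr rfl h2, h1]
  refine sum_congr rfl fun q _ => ?_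
  unfold bipartiteBelow
  rw [card_eq_sum_card_fiberwise (f := fun x => x % q) (t := R q)]
  · refine sum_congr rfl fun r hr => ?_
    congr 1
    ext x
    unfold St cls
    simp only [mem_filter]
    constructor
    · rintro ⟨⟨a1, a2, a3⟩, a4⟩
      exact ⟨⟨a1, a4⟩, a3⟩
    · rintro ⟨⟨a1, a4⟩, a3⟩
      exact ⟨⟨a1, by rw [a4]; exact hr, a3⟩, a4⟩
  · intro x hx
    rw [mem_coe, mem_filter] at hx
    exact hx.2.1

/-- the number of all flags -/
theorem sum_flags (k M : ℕ) (E P : Finset ℕ) (R : ℕ → Finset ℕ) (p : ℕ) :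
    ∑ b ∈ R p, (flags k M E P R p b).card = ∑ x ∈ E, ∑ q ∈ P,
      if x % p ∈ R p ∧ q ≠ p ∧ x % q ∈ R q then (JJ k M E q x).card else 0 := by
  classical
  have h1 : ∀ b, (flags k M E P R p b).card = ∑ x ∈ E, ∑ q ∈ P,
      if x % p = b ∧ q ≠ p ∧ x % q ∈ R q then (JJ k M E q x).card else 0 := by
    intro b
    unfold flags
    rw [card_filter, sum_product]
    refine sum_congr rfl fun x _ => ?_
    rw [sum_product]
    refine sum_congr rfl fun q _ => ?_
    by_cases h : x % p = b ∧ q ≠ p ∧ x % q ∈ R q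
    · rw [if_pos h]
      unfold JJ
      rw [card_filter]
      refine sum_congr rfl fun d _ => ?_
      simp only [h.1, h.2.1, h.2.2, ne_eq, not_false_eq_true, true_and]
    · rw [if_neg h]
      apply sum_eq_zero
      intro d _
      rw [if_neg]
      simp only
      tauto
  rw [sum_congr rfl fun b _ => h1 b, sum_comm]
  refine sum_congr rfl fun x _ => ?_
  rw [sum_comm]
  refine sum_congr rfl fun q _ => ?_
  by_cases h : q ≠ p ∧ x % q ∈ R q
  · by_cases h2 : x % p ∈ R p
    · rw [if_pos ⟨h2, h⟩, sum_eq_single (x % p)]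
      · rw [if_pos ⟨rfl, h⟩]
      · intro b _ hb
        rw [if_neg]
        intro h3
        exact hb h3.1.symm
      · intro h3
        exact absurd h2 h3
    · rw [if_neg (fun h3 => h2 h3.1)]
      apply sum_eq_zero
      intro b hb
      rw [if_neg]
      intro h3
      exact h2 (by rw [h3.1]; exact hb)
  · rw [if_neg (fun h3 => h h3.2)]
    apply sum_eq_zero
    intro b _
    rw [if_neg]
    intro h3
    exact h h3.2

/-- many flags -/
theorem flags_ge {k M : ℕ} {c : ℝ} (E P : Finset ℕ) (R : ℕ → Finset ℕ) :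
    c * M * (∑ x ∈ E, ((QQ k M c E P R x).card : ℝ) * (((QQ k M c E P R x).card : ℝ) - 1)) ≤
      ∑ p ∈ P, ∑ b ∈ R p, ((flags k M E P R p b).card : ℝ) := by
  classical
  have h1 : ∀ p ∈ P, ∑ b ∈ R p, ((flags k M E P R p b).card : ℝ) = ∑ x ∈ E, ∑ q ∈ P,
      if x % p ∈ R p ∧ q ≠ p ∧ x % q ∈ R q then ((JJ k M E q x).card : ℝ) else 0 := by
    intro p _
    have := sum_flags k M E P R p
    exact_mod_cast this
  rw [sum_congr rfl h1, sum_comm, mul_sum]
  refine sum_le_sum fun x _ => ?_
  obtain ⟨T, hT⟩ : ∃ T, T = QQ k M c E P R x := ⟨_, rfl⟩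
  rw [← hT]
  have hTP : T ⊆ P := by
    rw [hT]
    unfold QQ
    exact filter_subset _ _
  have hmem : ∀ q ∈ T, x % q ∈ R q ∧ c * M ≤ ((JJ k M E q x).card : ℝ) := by
    intro q hq
    rw [hT] at hq
    unfold QQ at hq
    exact (mem_filter.1 hq).2
  have hnn : ∀ p q, (0 : ℝ) ≤ if x % p ∈ R p ∧ q ≠ p ∧ x % q ∈ R q then
      ((JJ k M E q x).card : ℝ) else 0 := by
    intro p q
    split_ifs
    · exact Nat.cast_nonneg _
    · exact le_rfl
  calc c * M * ((T.card : ℝ) * ((T.card : ℝ) - 1)) = ∑ p ∈ T, ∑ _q ∈ T.erase p, (c * M) := by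
        have : ∀ p ∈ T, ∑ _q ∈ T.erase p, (c * (M : ℝ)) = ((T.card : ℝ) - 1) * (c * M) := by
          intro p hp
          rw [sum_const, nsmul_eq_mul, card_erase_of_mem hp, Nat.cast_sub (card_pos.2 ⟨p, hp⟩)]
          push_cast
          ring
        rw [sum_congr rfl this, sum_const, nsmul_eq_mul]
        ring
    _ ≤ ∑ p ∈ T, ∑ q ∈ T.erase p, (if x % p ∈ R p ∧ q ≠ p ∧ x % q ∈ R q then
          ((JJ k M E q x).card : ℝ) else 0) := by
        refine sum_le_sum fun p hp => sum_le_sum fun q hq => ?_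
        rw [mem_erase] at hq
        rw [if_pos ⟨(hmem p hp).1, hq.1, (hmem q hq.2).1⟩]
        exact (hmem q hq.2).2
    _ ≤ ∑ p ∈ T, ∑ q ∈ P, (if x % p ∈ R p ∧ q ≠ p ∧ x % q ∈ R q then
          ((JJ k M E q x).card : ℝ) else 0) := by
        refine sum_le_sum fun p _ => sum_le_sum_of_subset_of_nonneg
          ((erase_subset _ _).trans hTP) fun q _ _ => hnn p q
    _ ≤ _ := sum_le_sum_of_subset_of_nonneg hTP fun p _ _ => sum_nonneg fun q _ => hnn p q

end Pool.Agent.K3h46.FP
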