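import Pool.Agent.K3h46.FP.Stem

/-!
# The moments of the numbers of elements in the residue classes
-/

set_option autoImplicit false

open Finset

namespace Pool.Agent.K3h46.FP

/-- interpolation between the first and the second moment -/
theorem interp {ι : Type*} (s : Finset ι) (a : ι → ℝ) (ha : ∀ i ∈ s, 0 ≤ a i) {κ : ℝ} (h1 : 1 < κ)
    (h2 : κ ≤ 2) {A B : ℝ} (hA : ∑ i ∈ s, a i ≤ A) (hB : ∑ i ∈ s, (a i) ^ 2 ≤ B) (hA0 : 0 < A)
    (hB0 : 0 < B) : ∑ i ∈ s, (a i) ^ κ ≤ A ^ (2 - κ) * B ^ (κ - 1) := by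
  obtain ⟨t, ht⟩ : ∃ t : ℝ, t = B / A := ⟨_, rfl⟩
  have ht0 : 0 < t := by rw [ht]; positivity
  have hκ : 0 < κ - 1 := by linarith
  have hterm : ∀ i ∈ s, (a i) ^ κ ≤ t ^ (κ - 1) * ((2 - κ) * a i + (κ - 1) / t * (a i) ^ 2) := by
    intro i hi
    have h3 := ha i hi
    rcases h3.eq_or_lt with h0 | h0
    · rw [← h0, Real.zero_rpow (by linarith)]
      simp
    have h4 : (a i) ^ κ = a i * (a i) ^ (κ - 1) := by
      rw [← Real.rpow_one_add' h0.le (by linarith)]
      congr 1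
      ring
    have h5 : (a i / t) ^ (κ - 1) ≤ 1 + (κ - 1) * (a i / t - 1) := by
      have h6 := rpow_one_add_le_one_add_mul_self (s := a i / t - 1)
        (by have : 0 < a i / t := by positivity
            linarith) (p := κ - 1) hκ.le (by linarith)
      have e : 1 + (a i / t - 1) = a i / t := by ring
      rwa [e] at h6
    have h6 : (a i) ^ (κ - 1) = t ^ (κ - 1) * (a i / t) ^ (κ - 1) := by
      rw [← Real.mul_rpow ht0.le (by positivity)]
      congr 1
      field_simp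
    rw [h4, h6]
    calc a i * (t ^ (κ - 1) * (a i / t) ^ (κ - 1)) ≤
          a i * (t ^ (κ - 1) * (1 + (κ - 1) * (a i / t - 1))) := by gcongr
      _ = t ^ (κ - 1) * ((2 - κ) * a i + (κ - 1) / t * (a i) ^ 2) := by
          field_simp
          ring
  calc ∑ i ∈ s, (a i) ^ κ ≤
        ∑ i ∈ s, t ^ (κ - 1) * ((2 - κ) * a i + (κ - 1) / t * (a i) ^ 2) := sum_le_sum hterm
    _ = t ^ (κ - 1) * ((2 - κ) * ∑ i ∈ s, a i + (κ - 1) / t * ∑ i ∈ s, (a i) ^ 2) := by
        rw [← mul_sum, sum_add_distrib, ← mul_sum, ← mul_sum]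
    _ ≤ t ^ (κ - 1) * ((2 - κ) * A + (κ - 1) / t * B) := by
        have : 0 ≤ 2 - κ := by linarith
        gcongr
    _ = t ^ (κ - 1) * A := by
        have e : (κ - 1) / t * B = (κ - 1) * A := by
          rw [ht]
          field_simp
        rw [e]
        ring
    _ = A ^ (2 - κ) * B ^ (κ - 1) := by
        rw [ht, Real.div_rpow hB0.le hA0.le]
        have e : A ^ (2 - κ) = A / A ^ (κ - 1) := by
          have : 2 - κ = 1 - (κ - 1) := by ring
          rw [this, Real.rpow_sub hA0, Real.rpow_one]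
        rw [e]
        ring

/-- the first moment -/
theorem sum_cls {E : Finset ℕ} {p : ℕ} (hp : 0 < p) : ∑ ρ ∈ range p, (cls E p ρ).card = E.card := by
  unfold cls
  symm
  apply card_eq_sum_card_fiberwise (f := fun n => n % p)
  intro n _
  rw [mem_coe, mem_range]
  exact Nat.mod_lt _ hp

/-- the number of the pairs which are congruent modulo `p` -/
theorem sum_cls_sq {E : Finset ℕ} {p : ℕ} (hp : 0 < p) :
    ∑ ρ ∈ range p, (cls E p ρ).card ^ 2 = ((E ×ˢ E).filter fun z => z.1 % p = z.2 % p).card := by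
  classical
  symm
  rw [card_eq_sum_card_fiberwise (f := fun z : ℕ × ℕ => z.1 % p) (t := range p)]
  · refine sum_congr rfl fun ρ _ => ?_
    rw [sq, ← card_product]
    congr 1
    ext z
    unfold cls
    simp only [mem_filter, mem_product]
    constructor
    · rintro ⟨⟨⟨a1, a2⟩, a3⟩, a4⟩
      exact ⟨⟨a1, a4⟩, a2, by rw [← a3, a4]⟩
    · rintro ⟨⟨a1, a2⟩, a3, a4⟩
      exact ⟨⟨⟨a1, a3⟩, by rw [a2, a4]⟩, a2⟩
  · intro z _
    rw [mem_coe, mem_range]
    exact Nat.mod_lt _ hp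

/-- the second moment -/
theorem second_moment {N : ℕ} {E P : Finset ℕ} (hE : E ⊆ Icc 1 N) (hP : ∀ p ∈ P, p.Prime)
    (hpq : ∀ p ∈ P, ∀ q ∈ P, N ≤ p * q) :
    ∑ p ∈ P, ∑ ρ ∈ range p, (cls E p ρ).card ^ 2 ≤ E.card * (E.card + P.card) := by
  classical
  rw [sum_congr rfl fun p hp => sum_cls_sq (E := E) (hP p hp).pos]
  -- split off the diagonal
  have hsplit : ∀ p ∈ P, ((E ×ˢ E).filter fun z => z.1 % p = z.2 % p).card ≤ E.card +
      ((((E ×ˢ E).filter fun z => z.1 ≠ z.2)).filter fun z => z.1 % p = z.2 % p).card := by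
    intro p _
    have hsub : (E ×ˢ E).filter (fun z => z.1 % p = z.2 % p) ⊆ (E.image fun x => (x, x)) ∪
        (((E ×ˢ E).filter fun z => z.1 ≠ z.2)).filter (fun z => z.1 % p = z.2 % p) := by
      intro z hz
      rw [mem_filter, mem_product] at hz
      rw [mem_union]
      by_cases h : z.1 = z.2
      · left
        rw [mem_image]
        exact ⟨z.1, hz.1.1, by ext <;> simp [h]⟩
      · right
        rw [mem_filter, mem_filter, mem_product]
        exact ⟨⟨hz.1, h⟩, hz.2⟩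
    refine (card_le_card hsub).trans ((card_union_le _ _).trans ?_)
    exact Nat.add_le_add_right card_image_le _
  have hoff : ∑ p ∈ P, ((((E ×ˢ E).filter fun z => z.1 ≠ z.2)).filter
      fun z => z.1 % p = z.2 % p).card ≤ E.card * E.card := by
    have h3 := Finset.sum_card_bipartiteAbove_eq_sum_card_bipartiteBelow
      (fun (p : ℕ) (z : ℕ × ℕ) => z.1 % p = z.2 % p) (s := P)
      (t := (E ×ˢ E).filter fun z => z.1 ≠ z.2)
    unfold bipartiteAbove bipartiteBelow at h3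
    rw [h3]
    calc ∑ z ∈ (E ×ˢ E).filter (fun z => z.1 ≠ z.2), (P.filter fun p => z.1 % p = z.2 % p).card ≤
          ∑ _z ∈ (E ×ˢ E).filter (fun z => z.1 ≠ z.2), 1 := by
          refine sum_le_sum fun z hz => ?_
          rw [card_le_one]
          intro p hp p' hp'
          rw [mem_filter] at hp hp' hz
          rw [mem_product] at hz
          have b1 := mem_Icc.1 (hE hz.1.1)
          have b2 := mem_Icc.1 (hE hz.1.2)
          rcases lt_or_gt_of_ne hz.2 with hlt | hlt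
          · refine prime_unique (hP p hp.1) (hP p' hp'.1) (hpq p hp.1 p' hp'.1)
              (D := z.2 - z.1) (by omega) (by omega) ?_ ?_
            · exact (Nat.modEq_iff_dvd' hlt.le).1 hp.2
            · exact (Nat.modEq_iff_dvd' hlt.le).1 hp'.2
          · refine prime_unique (hP p hp.1) (hP p' hp'.1) (hpq p hp.1 p' hp'.1)
              (D := z.1 - z.2) (by omega) (by omega) ?_ ?_
            · exact (Nat.modEq_iff_dvd' hlt.le).1 hp.2.symm
            · exact (Nat.modEq_iff_dvd' hlt.le).1 hp'.2.symm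
      _ = ((E ×ˢ E).filter fun z => z.1 ≠ z.2).card := by rw [card_eq_sum_ones]
      _ ≤ (E ×ˢ E).card := card_filter_le _ _
      _ = E.card * E.card := card_product _ _
  calc ∑ p ∈ P, ((E ×ˢ E).filter fun z => z.1 % p = z.2 % p).card ≤
        ∑ p ∈ P, (E.card + ((((E ×ˢ E).filter fun z => z.1 ≠ z.2)).filter
          fun z => z.1 % p = z.2 % p).card) := sum_le_sum hsplit
    _ = P.card * E.card + ∑ p ∈ P, ((((E ×ˢ E).filter fun z => z.1 ≠ z.2)).filter
          fun z => z.1 % p = z.2 % p).card := by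
        rw [sum_add_distrib, sum_const, smul_eq_mul]
    _ ≤ P.card * E.card + E.card * E.card := Nat.add_le_add_left hoff _
    _ = E.card * (E.card + P.card) := by ring

/-- interpolation for double sums -/
theorem interp2 (P : Finset ℕ) (r : ℕ → Finset ℕ) (a : ℕ → ℕ → ℝ) (ha : ∀ p q, 0 ≤ a p q) {κ : ℝ}
    (h1 : 1 < κ) (h2 : κ ≤ 2) {A B : ℝ} (hA : ∑ p ∈ P, ∑ q ∈ r p, a p q ≤ A)
    (hB : ∑ p ∈ P, ∑ q ∈ r p, (a p q) ^ 2 ≤ B) (hA0 : 0 < A) (hB0 : 0 < B) :
    ∑ p ∈ P, ∑ q ∈ r p, (a p q) ^ κ ≤ A ^ (2 - κ) * B ^ (κ - 1) := by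
  rw [Finset.sum_sigma'] at hA hB ⊢
  exact interp _ (fun z : (Σ _ : ℕ, ℕ) => a z.1 z.2) (fun z _ => ha z.1 z.2) h1 h2 hA hB hA0 hB0

/-- the moment of order `κ` -/
theorem kappa_moment {κ : ℝ} (h1 : 1 < κ) (h2 : κ ≤ 2) {N : ℕ} {E P : Finset ℕ}
    (hE : E ⊆ Icc 1 N) (hP : ∀ p ∈ P, p.Prime) (hpq : ∀ p ∈ P, ∀ q ∈ P, N ≤ p * q)
    (hE0 : 0 < E.card) (hP0 : 0 < P.card) :
    ∑ p ∈ P, ∑ ρ ∈ range p, ((cls E p ρ).card : ℝ) ^ κ ≤
      ((E.card : ℝ) * P.card) ^ (2 - κ) * ((E.card : ℝ) * (E.card + P.card)) ^ (κ - 1) := by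
  have hE0' : (0 : ℝ) < E.card := by exact_mod_cast hE0
  have hP0' : (0 : ℝ) < P.card := by exact_mod_cast hP0
  refine interp2 P (fun p => range p) (fun p ρ => ((cls E p ρ).card : ℝ))
    (fun _ _ => Nat.cast_nonneg _) h1 h2 ?_ ?_ (by positivity) (by positivity)
  · have h3 : ∑ p ∈ P, ∑ ρ ∈ range p, (cls E p ρ).card = P.card * E.card := by
      rw [sum_congr rfl fun p hp => sum_cls (E := E) (hP p hp).pos, sum_const, smul_eq_mul]
    have h4 : ((∑ p ∈ P, ∑ ρ ∈ range p, (cls E p ρ).card : ℕ) : ℝ) = ((P.card * E.card : ℕ) : ℝ) := by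
      rw [h3]
    push_cast at h4
    rw [h4, mul_comm]
  · have h3 := second_moment hE hP hpq
    have h4 : ((∑ p ∈ P, ∑ ρ ∈ range p, (cls E p ρ).card ^ 2 : ℕ) : ℝ) ≤
        ((E.card * (E.card + P.card) : ℕ) : ℝ) := Nat.cast_le.2 h3
    push_cast at h4
    exact h4

end Pool.Agent.K3h46.FP
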