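import Pool.Agent.K3h46.FP.Varn
import Pool.Agent.K3h46.MU.Prog

/-!
# Flags over a stem: the number of the progressions that start on a residue class
-/

set_option autoImplicit false

open Finset

namespace Pool.Agent.K3h46.FP

open Pool.Agent.K3h46.MU (starts)

/-- the elements of `E` in the class `r` modulo `q` -/
def cls (E : Finset ℕ) (q r : ℕ) : Finset ℕ := E.filter fun n => n % q = r

/-- the `d ≤ M` such that `E` contains `x + j d q` for `j ≤ k` -/
def JJ (k M : ℕ) (E : Finset ℕ) (q x : ℕ) : Finset ℕ :=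
  (Icc 1 M).filter fun d => ∀ j ≤ k, x + j * (d * q) ∈ E

/-- a prime factor of size at least the square root is unique -/
theorem prime_unique {N p q D : ℕ} (hp : p.Prime) (hq : q.Prime) (hpq : N ≤ p * q) (hD0 : 0 < D)
    (hDN : D < N) (h1 : p ∣ D) (h2 : q ∣ D) : p = q := by
  by_contra hne
  have hcop : Nat.Coprime p q := (Nat.coprime_primes hp hq).2 hne
  have := Nat.le_of_dvd hD0 (hcop.mul_dvd_of_dvd_of_dvd h1 h2)
  omega

/-- power mean -/
theorem sum_rpow_le_pow {ι : Type*} (s : Finset ι) (f : ι → ℝ) (hf : ∀ i ∈ s, 0 ≤ f i) {κ : ℝ}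
    (hκ : 0 < κ) : (∑ i ∈ s, f i) ^ κ ≤ (s.card : ℝ) ^ κ * ∑ i ∈ s, (f i) ^ κ := by
  classical
  rcases s.eq_empty_or_nonempty with hs | hs
  · rw [hs]
    simp [Real.zero_rpow hκ.ne']
  obtain ⟨i₀, hi₀, hmax⟩ := exists_max_image s f hs
  have h1 : ∑ i ∈ s, f i ≤ s.card * f i₀ := by
    calc ∑ i ∈ s, f i ≤ ∑ _i ∈ s, f i₀ := sum_le_sum hmax
      _ = _ := by rw [sum_const, nsmul_eq_mul]
  calc (∑ i ∈ s, f i) ^ κ ≤ (s.card * f i₀) ^ κ :=
        Real.rpow_le_rpow (sum_nonneg hf) h1 hκ.le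
    _ = (s.card : ℝ) ^ κ * (f i₀) ^ κ := Real.mul_rpow (Nat.cast_nonneg _) (hf _ hi₀)
    _ ≤ _ := by
        gcongr
        exact single_le_sum (f := fun i => (f i) ^ κ)
          (fun i hi => Real.rpow_nonneg (hf i hi) _) hi₀

/-- the flags over the stem `(p, b)` -/
def flags (k M : ℕ) (E P : Finset ℕ) (R : ℕ → Finset ℕ) (p b : ℕ) : Finset (ℕ × ℕ × ℕ) :=
  (E ×ˢ (P ×ˢ Icc 1 M)).filter fun z => z.1 % p = b ∧ z.2.1 ≠ p ∧ z.1 % z.2.1 ∈ R z.2.1 ∧
    ∀ j ≤ k, z.1 + j * (z.2.2 * z.2.1) ∈ E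

/-- **the number of the flags over a stem** -/
theorem stem_bound {κ : ℝ} (h1 : 1 < κ) (h2 : κ ≤ 2) {k : ℕ} (hk1 : 1 ≤ k)
    (hprog : ∀ T D : Finset ℤ, ∑ d ∈ D, ((starts k T d).card : ℝ) ^ (κ - 1) ≤ (T.card : ℝ) ^ κ)
    {N M m : ℕ} {E P : Finset ℕ} {R : ℕ → Finset ℕ} (hE : E ⊆ Icc 1 N)
    (hP : ∀ p ∈ P, p.Prime) (hpq : ∀ p ∈ P, ∀ q ∈ P, N ≤ p * q) (hkp : ∀ p ∈ P, k < p)
    (hR : ∀ q ∈ P, (R q).card ≤ m) {p : ℕ} (hp : p ∈ P) (b : ℕ) :
    ((flags k M E P R p b).card : ℝ) ≤ (m : ℝ) ^ (2 - κ) * ((k : ℝ) ^ κ * (k *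
      ∑ ρ ∈ range p, ((cls E p ρ).card : ℝ) ^ κ)) := by
  classical
  have hκ : 0 < κ - 1 := by linarith
  have hp0 : 0 < p := (hP p hp).pos
  obtain ⟨F, hF⟩ : ∃ F, F = flags k M E P R p b := ⟨_, rfl⟩
  rw [← hF]
  have hmemF : ∀ z ∈ F, z.1 ∈ E ∧ z.2.1 ∈ P ∧ 1 ≤ z.2.2 ∧ z.1 % p = b ∧ z.2.1 ≠ p ∧
      z.1 % z.2.1 ∈ R z.2.1 ∧ ∀ j ≤ k, z.1 + j * (z.2.2 * z.2.1) ∈ E := by
    intro z hz
    rw [hF, flags, mem_filter, mem_product, mem_product, mem_Icc] at hz
    exact ⟨hz.1.1, hz.1.2.1, hz.1.2.2.1, hz.2⟩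
  -- the difference of a flag
  obtain ⟨dd, hdd⟩ : ∃ dd : ℕ × ℕ × ℕ → ℕ, ∀ z, dd z = z.2.2 * z.2.1 := ⟨_, fun _ => rfl⟩
  have hddr : ∀ z ∈ F, 0 < dd z ∧ dd z < N := by
    intro z hz
    obtain ⟨a1, a2, a3, a4, a5, a6, a7⟩ := hmemF z hz
    have b1 := mem_Icc.1 (hE a1)
    have b2 := mem_Icc.1 (hE (a7 1 hk1))
    rw [hdd]
    refine ⟨Nat.mul_pos a3 (hP _ a2).pos, ?_⟩
    omega
  -- the difference determines the modulus
  have hq : ∀ z ∈ F, ∀ z' ∈ F, dd z = dd z' → z.2.1 = z'.2.1 := by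
    intro z hz z' hz' h
    obtain ⟨a1, a2, a3, a4, a5, a6, a7⟩ := hmemF z hz
    obtain ⟨b1, b2, b3, b4, b5, b6, b7⟩ := hmemF z' hz'
    refine prime_unique (hP _ a2) (hP _ b2) (hpq _ a2 _ b2) (hddr z hz).1 (hddr z hz).2 ?_ ?_
    · rw [hdd]; exact Dvd.intro_left _ rfl
    · rw [h, hdd]; exact Dvd.intro_left _ rfl
  have hinj : ∀ z ∈ F, ∀ z' ∈ F, z.1 = z'.1 → dd z = dd z' → z = z' := by
    intro z hz z' hz' hx hd
    have e1 := hq z hz z' hz' hd
    obtain ⟨a1, a2, a3, a4, a5, a6, a7⟩ := hmemF z hz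
    rw [hdd, hdd, e1] at hd
    have hq0 : 0 < z'.2.1 := by rw [← e1]; exact (hP _ a2).pos
    have e2 := Nat.eq_of_mul_eq_mul_right hq0 hd
    exact Prod.ext hx (Prod.ext e1 e2)
  -- the fibres
  obtain ⟨fib, hfib⟩ : ∃ fib : ℕ → Finset (ℕ × ℕ × ℕ), ∀ D, fib D = F.filter fun z => dd z = D :=
    ⟨_, fun _ => rfl⟩
  have hfm : ∀ D, (fib D).card ≤ m := by
    intro D
    rcases (fib D).eq_empty_or_nonempty with h0 | ⟨z₀, hz₀⟩
    · rw [h0, card_empty]; exact Nat.zero_le _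
    rw [hfib, mem_filter] at hz₀
    have c1 := hmemF z₀ hz₀.1
    refine le_trans ?_ (hR z₀.2.1 c1.2.1)
    apply card_le_card_of_injOn (fun z => z.1 % z₀.2.1)
    · intro z hz
      rw [mem_coe, hfib, mem_filter] at hz
      have e1 := hq z hz.1 z₀ hz₀.1 (by rw [hz.2, hz₀.2])
      rw [mem_coe, ← e1]
      exact (hmemF z hz.1).2.2.2.2.2.1
    · intro z hz z' hz' hzz
      rw [mem_coe, hfib, mem_filter] at hz hz'
      simp only at hzz
      refine hinj z hz.1 z' hz'.1 ?_ (by rw [hz.2, hz'.2])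
      have a := hmemF z hz.1
      have a' := hmemF z' hz'.1
      have e1 := hq z hz.1 z₀ hz₀.1 (by rw [hz.2, hz₀.2])
      -- congruent modulo `p` and modulo `q`
      have hne : z₀.2.1 ≠ p := c1.2.2.2.2.1
      have hcop : Nat.Coprime p z₀.2.1 :=
        (Nat.coprime_primes (hP p hp) (hP _ c1.2.1)).2 (fun h => hne h.symm)
      have hm1 : z.1 ≡ z'.1 [MOD p] := by
        unfold Nat.ModEq
        rw [a.2.2.2.1, a'.2.2.2.1]
      have hm2 : z.1 ≡ z'.1 [MOD z₀.2.1] := hzz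
      have hm3 : z.1 ≡ z'.1 [MOD p * z₀.2.1] :=
        (Nat.modEq_and_modEq_iff_modEq_mul hcop).1 ⟨hm1, hm2⟩
      have b1 := mem_Icc.1 (hE a.1)
      have b2 := mem_Icc.1 (hE a'.1)
      have b3 := hpq p hp _ c1.2.1
      by_contra hne2
      rcases lt_or_gt_of_ne hne2 with hlt | hlt
      · have h3 := (Nat.modEq_iff_dvd' hlt.le).1 hm3
        have h4 := Nat.le_of_dvd (by omega) h3
        omega
      · have h3 := (Nat.modEq_iff_dvd' hlt.le).1 hm3.symm
        have h4 := Nat.le_of_dvd (by omega) h3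
        omega
  -- the sets of the slices
  obtain ⟨U, hU⟩ : ∃ U : ℕ → Finset ℕ, ∀ δ, U δ = (Icc 1 k).biUnion fun j =>
      cls E p ((b + j * δ) % p) := ⟨_, fun _ => rfl⟩
  have hUc : ∀ δ, ((U δ).card : ℝ) ^ κ ≤ (k : ℝ) ^ κ * ∑ j ∈ Icc 1 k,
      ((cls E p ((b + j * δ) % p)).card : ℝ) ^ κ := by
    intro δ
    have e1 : ((U δ).card : ℝ) ≤ ∑ j ∈ Icc 1 k, ((cls E p ((b + j * δ) % p)).card : ℝ) := by
      rw [hU]
      exact_mod_cast card_biUnion_le
    have e2 := sum_rpow_le_pow (Icc 1 k) (fun j => ((cls E p ((b + j * δ) % p)).card : ℝ))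
      (fun _ _ => Nat.cast_nonneg _) (κ := κ) (by linarith)
    rw [Nat.card_Icc, Nat.add_sub_cancel] at e2
    exact (Real.rpow_le_rpow (Nat.cast_nonneg _) e1 (by linarith)).trans e2
  have hstart : ∀ δ, ∀ D, D % p = δ → (fib D).card ≤
      (starts k ((U δ).image fun n : ℕ => (n : ℤ)) (D : ℤ)).card := by
    intro δ D hD
    apply card_le_card_of_injOn (fun z => (z.1 : ℤ) + D)
    · intro z hz
      rw [mem_coe, hfib, mem_filter] at hz
      have a := hmemF z hz.1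
      have hD' := hz.2
      rw [hdd] at hD'
      have hterm : ∀ j : ℕ, 1 ≤ j → j ≤ k → z.1 + j * D ∈ U δ := by
        intro j hj1 hjk
        rw [hU, mem_biUnion]
        refine ⟨j, mem_Icc.2 ⟨hj1, hjk⟩, ?_⟩
        unfold cls
        rw [mem_filter]
        refine ⟨?_, ?_⟩
        · have := a.2.2.2.2.2.2 j hjk
          rwa [hD'] at this
        · rw [← hD, ← a.2.2.2.1, Nat.add_mod, Nat.mul_mod]
          conv_rhs => rw [Nat.add_mod, Nat.mul_mod]
          simp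
      rw [mem_coe]
      unfold Pool.Agent.K3h46.MU.starts
      rw [mem_filter]
      refine ⟨?_, fun i hi => ?_⟩
      · rw [mem_image]
        exact ⟨z.1 + 1 * D, hterm 1 le_rfl hk1, by push_cast; ring⟩
      · rw [mem_image]
        exact ⟨z.1 + (i + 1) * D, hterm (i + 1) (by omega) (by omega), by push_cast; ring⟩
    · intro z hz z' hz' hzz
      rw [mem_coe, hfib, mem_filter] at hz hz'
      refine hinj z hz.1 z' hz'.1 ?_ (by rw [hz.2, hz'.2])
      simp only at hzz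
      have : (z.1 : ℤ) = z'.1 := by linarith
      exact_mod_cast this
  -- one residue class of the difference
  have hδ : ∀ δ ∈ range p, ((F.filter fun z => dd z % p = δ).card : ℝ) ≤
      (m : ℝ) ^ (2 - κ) * ((U δ).card : ℝ) ^ κ := by
    intro δ _
    have e1 : (F.filter fun z => dd z % p = δ).card =
        ∑ D ∈ (range N).filter (fun D => D % p = δ), (fib D).card := by
      rw [card_eq_sum_card_fiberwise (f := dd) (t := (range N).filter (fun D => D % p = δ))]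
      · refine sum_congr rfl fun D hD => ?_
        rw [mem_filter] at hD
        rw [hfib, filter_filter]
        congr 1
        ext z
        simp only [mem_filter]
        constructor
        · rintro ⟨a1, a2, a3⟩
          exact ⟨a1, a3⟩
        · rintro ⟨a1, a3⟩
          exact ⟨a1, by rw [a3]; exact hD.2, a3⟩
      · intro z hz
        rw [mem_coe, mem_filter] at hz
        rw [mem_coe, mem_filter, mem_range]
        exact ⟨(hddr z hz.1).2, hz.2⟩
    rw [e1]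
    push_cast
    have e2 : ∀ D, ((fib D).card : ℝ) ≤ (m : ℝ) ^ (2 - κ) * ((fib D).card : ℝ) ^ (κ - 1) := by
      intro D
      rcases (Nat.zero_le (fib D).card).eq_or_lt with h0 | h0
      · rw [← h0, Nat.cast_zero, Real.zero_rpow hκ.ne', mul_zero]
      · have h3 : (0 : ℝ) < (fib D).card := by exact_mod_cast h0
        have h4 : ((fib D).card : ℝ) ≤ m := by exact_mod_cast hfm D
        calc ((fib D).card : ℝ) = ((fib D).card : ℝ) ^ (2 - κ) * ((fib D).card : ℝ) ^ (κ - 1) := by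
              rw [← Real.rpow_add h3]
              norm_num
          _ ≤ _ := by
              gcongr
    calc ∑ D ∈ (range N).filter (fun D => D % p = δ), ((fib D).card : ℝ) ≤
          ∑ D ∈ (range N).filter (fun D => D % p = δ),
            (m : ℝ) ^ (2 - κ) * ((fib D).card : ℝ) ^ (κ - 1) := sum_le_sum fun D _ => e2 D
      _ = (m : ℝ) ^ (2 - κ) * ∑ D ∈ (range N).filter (fun D => D % p = δ),
            ((fib D).card : ℝ) ^ (κ - 1) := by rw [mul_sum]
      _ ≤ (m : ℝ) ^ (2 - κ) * ∑ D ∈ (range N).filter (fun D => D % p = δ),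
            ((starts k ((U δ).image fun n : ℕ => (n : ℤ)) (D : ℤ)).card : ℝ) ^ (κ - 1) := by
          gcongr with D hD
          exact hstart δ D (mem_filter.1 hD).2
      _ ≤ (m : ℝ) ^ (2 - κ) * ((U δ).card : ℝ) ^ κ := by
          gcongr
          have h3 := hprog ((U δ).image fun n : ℕ => (n : ℤ))
            (((range N).filter (fun D => D % p = δ)).image fun D : ℕ => (D : ℤ))
          rw [sum_image (fun x _ y _ hxy => by exact_mod_cast hxy),
            card_image_of_injective _ Nat.cast_injective] at h3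
          exact h3
  -- all residue classes
  have hall : (F.card : ℝ) = ∑ δ ∈ range p, ((F.filter fun z => dd z % p = δ).card : ℝ) := by
    have : F.card = ∑ δ ∈ range p, (F.filter fun z => dd z % p = δ).card := by
      apply card_eq_sum_card_fiberwise (f := fun z => dd z % p)
      intro z _
      rw [mem_coe, mem_range]
      exact Nat.mod_lt _ hp0
    exact_mod_cast this
  rw [hall]
  have hbij : ∀ j ∈ Icc 1 k, ∑ δ ∈ range p, ((cls E p ((b + j * δ) % p)).card : ℝ) ^ κ ≤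
      ∑ ρ ∈ range p, ((cls E p ρ).card : ℝ) ^ κ := by
    intro j hj
    rw [mem_Icc] at hj
    have hinj2 : Set.InjOn (fun δ => (b + j * δ) % p) (range p : Set ℕ) := by
      intro δ hδ1 δ' hδ2 h
      rw [mem_coe, mem_range] at hδ1 hδ2
      simp only at h
      have h3 : b + j * δ ≡ b + j * δ' [MOD p] := h
      have h4 : j * δ ≡ j * δ' [MOD p] := Nat.ModEq.add_left_cancel' b h3
      have hcop : Nat.gcd p j = 1 := by
        have hnd : ¬ p ∣ j := fun hd => by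
          have := Nat.le_of_dvd (by omega) hd
          have := hkp p hp
          omega
        exact ((Nat.Prime.coprime_iff_not_dvd (hP p hp)).2 hnd)
      have h5 : δ ≡ δ' [MOD p] := Nat.ModEq.cancel_left_of_coprime hcop h4
      unfold Nat.ModEq at h5
      rwa [Nat.mod_eq_of_lt hδ1, Nat.mod_eq_of_lt hδ2] at h5
    rw [← sum_image (f := fun ρ => ((cls E p ρ).card : ℝ) ^ κ) hinj2]
    apply sum_le_sum_of_subset_of_nonneg
    · intro ρ hρ
      obtain ⟨δ, _, rfl⟩ := mem_image.1 hρ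
      rw [mem_range]
      exact Nat.mod_lt _ hp0
    · intro _ _ _
      positivity
  calc ∑ δ ∈ range p, ((F.filter fun z => dd z % p = δ).card : ℝ) ≤
        ∑ δ ∈ range p, (m : ℝ) ^ (2 - κ) * ((U δ).card : ℝ) ^ κ := sum_le_sum hδ
    _ ≤ ∑ δ ∈ range p, (m : ℝ) ^ (2 - κ) * ((k : ℝ) ^ κ * ∑ j ∈ Icc 1 k,
          ((cls E p ((b + j * δ) % p)).card : ℝ) ^ κ) := by
        gcongr with δ _
        exact hUc δ
    _ = (m : ℝ) ^ (2 - κ) * ((k : ℝ) ^ κ * ∑ j ∈ Icc 1 k, ∑ δ ∈ range p,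
          ((cls E p ((b + j * δ) % p)).card : ℝ) ^ κ) := by
        rw [← mul_sum, ← mul_sum, sum_comm]
    _ ≤ (m : ℝ) ^ (2 - κ) * ((k : ℝ) ^ κ * ∑ _j ∈ Icc 1 k,
          ∑ ρ ∈ range p, ((cls E p ρ).card : ℝ) ^ κ) := by
        apply mul_le_mul_of_nonneg_left _ (by positivity)
        apply mul_le_mul_of_nonneg_left _ (by positivity)
        exact sum_le_sum hbij
    _ = _ := by
        rw [sum_const, nsmul_eq_mul, Nat.card_Icc, Nat.add_sub_cancel]

end Pool.Agent.K3h46.FP
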