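import Pool.Agent.K3h46.RB.Szem

/-!
# Many progressions in dense sets (Varnavides), and elements at which many progressions start
-/

set_option autoImplicit false

open Finset

namespace Pool.Agent.K3h46.FP

/-- the common differences `1 ≤ d ≤ M` of the `(k+1)`-term progressions in `H` with first term `x` -/
def dif (k M : ℕ) (H : Finset ℕ) (x : ℕ) : Finset ℕ :=
  (Icc 1 M).filter fun d => ∀ j ≤ k, x + j * d ∈ H

/-- the number of the progressions in a dense set -/
theorem varnavides (k : ℕ) (δ : ℝ) (hδ : 0 < δ) : ∃ (c : ℝ) (M₀ : ℕ), 0 < c ∧ ∀ M : ℕ, M₀ ≤ M →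
    ∀ H : Finset ℕ, H ⊆ range M → δ * M ≤ H.card →
      c * (M : ℝ) ^ 2 ≤ ∑ x ∈ range M, ((dif k M H x).card : ℝ) := by
  classical
  obtain ⟨D, hD1, hD⟩ := Pool.Agent.K3h46.RB.szem k (δ / 2) (by positivity)
  have hD0 : (0 : ℝ) < D := by exact_mod_cast hD1
  obtain ⟨M₀, hM₀⟩ := exists_nat_gt (max 1 (8 * D / δ))
  obtain ⟨c, hc⟩ : ∃ c : ℝ, c = δ / 4 * (δ / (8 * D)) / (D * D * (D + 1)) := ⟨_, rfl⟩
  refine ⟨c, M₀, by rw [hc]; positivity, fun M hM H hH hc' => ?_⟩
  have hMr : (max 1 (8 * D / δ) : ℝ) < M := hM₀.trans_le (by exact_mod_cast hM)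
  have hM1 : (1 : ℝ) < M := (le_max_left _ _).trans_lt hMr
  have hM0 : (0 : ℝ) < M := by linarith
  have hM8 : 8 * (D : ℝ) / δ < M := (le_max_right _ _).trans_lt hMr
  -- the scales
  obtain ⟨e₀, he₀⟩ : ∃ e₀ : ℕ, e₀ = ⌊δ * M / (4 * D)⌋₊ := ⟨_, rfl⟩
  have he1 : (e₀ : ℝ) ≤ δ * M / (4 * D) := by
    rw [he₀]
    exact Nat.floor_le (by positivity)
  have he2 : δ * M / (8 * D) ≤ e₀ := by
    have h1 := Nat.lt_floor_add_one (δ * M / (4 * D))
    rw [← he₀] at h1
    have h2 : 1 ≤ δ * M / (8 * D) := by
      rw [le_div_iff₀ (by positivity), one_mul]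
      rw [div_lt_iff₀ hδ] at hM8
      linarith
    have h3 : δ * M / (4 * D) = 2 * (δ * M / (8 * D)) := by
      field_simp
      ring
    linarith
  have hHM : (H.card : ℝ) ≤ M := by
    have := card_le_card hH
    rw [card_range] at this
    exact_mod_cast this
  have hδ1 : δ ≤ 1 := by
    have : δ * M ≤ 1 * M := by linarith
    exact le_of_mul_le_mul_right this hM0
  -- the number of starting points for one scale
  obtain ⟨blk, hblk⟩ : ∃ blk : ℕ → ℕ → Finset ℕ, ∀ e s, blk e s =
      (range D).filter fun i => s + i * e ∈ H := ⟨_, fun _ _ => rfl⟩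
  obtain ⟨G, hG⟩ : ∃ G : ℕ → Finset ℕ, ∀ e, G e =
      (range M).filter fun s => δ / 2 * D ≤ (blk e s).card := ⟨_, fun _ => rfl⟩
  have hone : ∀ e ∈ Icc 1 e₀, δ / 4 * M ≤ (G e).card := by
    intro e he
    rw [mem_Icc] at he
    have her : (e : ℝ) ≤ δ * M / (4 * D) := le_trans (by exact_mod_cast he.2) he1
    have hdc := Finset.sum_card_bipartiteAbove_eq_sum_card_bipartiteBelow
      (fun (s i : ℕ) => s + i * e ∈ H) (s := range M) (t := range D)
    have hlow : ∀ i ∈ range D, (3 / 4 : ℝ) * δ * M ≤
        ((bipartiteBelow (fun (s i : ℕ) => s + i * e ∈ H) (range M) i).card : ℝ) := by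
      intro i hi
      rw [mem_range] at hi
      have h1 : H.card ≤ (bipartiteBelow (fun (s i : ℕ) => s + i * e ∈ H) (range M) i).card +
          i * e := by
        have h2 : H ⊆ ((bipartiteBelow (fun (s i : ℕ) => s + i * e ∈ H) (range M) i).image
            fun s => s + i * e) ∪ range (i * e) := by
          intro h hh
          rw [mem_union, mem_range]
          by_cases hlt : h < i * e
          · exact Or.inr hlt
          · left
            rw [mem_image]
            refine ⟨h - i * e, ?_, by omega⟩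
            rw [mem_bipartiteBelow, mem_range]
            have := mem_range.1 (hH hh)
            refine ⟨by omega, ?_⟩
            have e1 : h - i * e + i * e = h := by omega
            rwa [e1]
        have h3 := (card_le_card h2).trans (card_union_le _ _)
        rw [card_range] at h3
        exact h3.trans (Nat.add_le_add_right card_image_le _)
      have h2 : ((i * e : ℕ) : ℝ) ≤ 1 / 4 * δ * M := by
        push_cast
        have hi' : (i : ℝ) ≤ D := by exact_mod_cast hi.le
        calc (i : ℝ) * e ≤ D * (δ * M / (4 * D)) := by gcongr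
          _ = 1 / 4 * δ * M := by field_simp
      have h3 : (H.card : ℝ) ≤ ((bipartiteBelow (fun (s i : ℕ) => s + i * e ∈ H)
          (range M) i).card : ℝ) + ((i * e : ℕ) : ℝ) := by exact_mod_cast h1
      linarith
    have h1 : (D : ℝ) * (3 / 4 * δ * M) ≤ ∑ s ∈ range M, ((blk e s).card : ℝ) := by
      have e1 : ∑ s ∈ range M, ((blk e s).card : ℝ) = ∑ i ∈ range D,
          ((bipartiteBelow (fun (s i : ℕ) => s + i * e ∈ H) (range M) i).card : ℝ) := by
        have : ∑ s ∈ range M, (blk e s).card = ∑ i ∈ range D,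
            (bipartiteBelow (fun (s i : ℕ) => s + i * e ∈ H) (range M) i).card := by
          rw [← hdc]
          refine sum_congr rfl fun s _ => ?_
          rw [hblk]
          rfl
        exact_mod_cast this
      rw [e1]
      calc (D : ℝ) * (3 / 4 * δ * M) = ∑ _i ∈ range D, (3 / 4 * δ * M) := by
            rw [sum_const, nsmul_eq_mul, card_range]
        _ ≤ _ := sum_le_sum hlow
    have h2 : ∑ s ∈ range M, ((blk e s).card : ℝ) ≤ (G e).card * D + M * (δ / 2 * D) := by
      rw [← sum_filter_add_sum_filter_not (range M) (fun s => δ / 2 * D ≤ ((blk e s).card : ℝ)),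
        ← hG]
      apply add_le_add
      · calc ∑ s ∈ G e, ((blk e s).card : ℝ) ≤ ∑ _s ∈ G e, (D : ℝ) := by
              refine sum_le_sum fun s _ => ?_
              have : (blk e s).card ≤ (range D).card := by
                rw [hblk]
                exact card_le_card (filter_subset _ _)
              rw [card_range] at this
              exact_mod_cast this
          _ = _ := by rw [sum_const, nsmul_eq_mul]
      · calc _ ≤ ∑ _s ∈ (range M).filter (fun s => ¬ δ / 2 * D ≤ ((blk e s).card : ℝ)),
              (δ / 2 * D) := sum_le_sum fun s hs => (not_le.1 (mem_filter.1 hs).2).le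
          _ ≤ M * (δ / 2 * D) := by
              rw [sum_const, nsmul_eq_mul]
              have : ((range M).filter (fun s => ¬ δ / 2 * D ≤ ((blk e s).card : ℝ))).card ≤ M := by
                have := card_le_card (filter_subset (fun s =>
                  ¬ δ / 2 * D ≤ ((blk e s).card : ℝ)) (range M))
                rwa [card_range] at this
              gcongr
    have h3 : (D : ℝ) * (δ / 4 * M) ≤ D * (G e).card := by nlinarith
    exact le_of_mul_le_mul_left h3 hD0
  -- all pairs
  obtain ⟨P, hP⟩ : ∃ P : Finset (ℕ × ℕ), P = ((Icc 1 e₀).sigma G).image fun p => (p.1, p.2) :=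
    ⟨_, rfl⟩
  have hPc : δ / 4 * M * (δ * M / (8 * D)) ≤ P.card := by
    have e1 : P.card = ∑ e ∈ Icc 1 e₀, (G e).card := by
      rw [hP, card_image_of_injective, card_sigma]
      rintro ⟨a, b⟩ ⟨a', b'⟩ h
      simp only [Prod.mk.injEq] at h
      obtain ⟨rfl, rfl⟩ := h
      rfl
    rw [e1]
    push_cast
    calc δ / 4 * M * (δ * M / (8 * D)) ≤ δ / 4 * M * e₀ := by gcongr
      _ = ∑ _e ∈ Icc 1 e₀, (δ / 4 * M) := by
          rw [sum_const, nsmul_eq_mul, Nat.card_Icc, Nat.add_sub_cancel]
          ring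
      _ ≤ _ := sum_le_sum hone
  have hsel : ∀ p ∈ P, ∃ a d : ℕ, a < D ∧ 1 ≤ d ∧ d ≤ D ∧ (p.2 + a * p.1 < M) ∧
      d * p.1 ∈ dif k M H (p.2 + a * p.1) := by
    intro p hp
    rw [hP, mem_image] at hp
    obtain ⟨⟨e, s⟩, hes, rfl⟩ := hp
    rw [mem_sigma] at hes
    have he := mem_Icc.1 hes.1
    have hs := hes.2
    rw [hG, mem_filter, mem_range] at hs
    obtain ⟨a, d, hd, had⟩ := hD D le_rfl (blk e s) (by rw [hblk]; exact filter_subset _ _) hs.2
    simp only at he hs ⊢
    have h0 := had 0 (by omega)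
    rw [hblk, mem_filter, mem_range] at h0
    have hdD : ∃ d' : ℕ, 1 ≤ d' ∧ d' ≤ D ∧ ∀ j ≤ k, a + j * d' ∈ blk e s := by
      rcases Nat.eq_zero_or_pos k with hk | hk
      · refine ⟨1, le_rfl, hD1, fun j hj => ?_⟩
        have : j = 0 := by omega
        subst this
        have := had 0 (by omega)
        simpa using this
      · have h1 := had 1 hk
        rw [hblk, mem_filter, mem_range] at h1
        exact ⟨d, hd, by omega, had⟩
    obtain ⟨d', hd1, hd2, hd3⟩ := hdD
    have hsa : s + a * e ∈ H := by simpa using h0.2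
    refine ⟨a, d', by simpa using h0.1, hd1, hd2, mem_range.1 (hH hsa), ?_⟩
    unfold dif
    rw [mem_filter, mem_Icc]
    refine ⟨⟨Nat.mul_pos hd1 he.1, ?_⟩, fun j hj => ?_⟩
    · have h2 : ((d' * e : ℕ) : ℝ) ≤ M := by
        push_cast
        have a1 : (d' : ℝ) ≤ D := by exact_mod_cast hd2
        have a2 : (e : ℝ) ≤ δ * M / (4 * D) := le_trans (by exact_mod_cast he.2) he1
        calc (d' : ℝ) * e ≤ D * (δ * M / (4 * D)) := by gcongr
          _ = δ * M / 4 := by field_simp
          _ ≤ 1 * M / 4 := by gcongr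
          _ ≤ M := by linarith
      exact_mod_cast h2
    · have h2 := hd3 j hj
      rw [hblk, mem_filter] at h2
      have e1 : s + a * e + j * (d' * e) = s + (a + j * d') * e := by ring
      rw [e1]
      exact h2.2
  choose! fa fd h1 h2 h3 h4 h5 using hsel
  -- the map to the progressions
  have hcard : P.card ≤ ((((range M).sigma fun x => dif k M H x).card) * (D * (D + 1))) := by
    have e0 : D * (D + 1) = ((range D) ×ˢ (range (D + 1))).card := by
      rw [card_product, card_range, card_range]
    rw [e0, ← card_product]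
    apply card_le_card_of_injOn (fun p => ((⟨p.2 + fa p * p.1, fd p * p.1⟩ : Σ _ : ℕ, ℕ),
      (fa p, fd p)))
    · intro p hp
      rw [mem_coe] at hp
      rw [mem_coe, mem_product, mem_sigma, mem_product, mem_range, mem_range, mem_range]
      refine ⟨⟨h4 p hp, h5 p hp⟩, h1 p hp, ?_⟩
      have := h3 p hp
      simp only
      omega
    · intro p hp p' hp' hpp
      rw [mem_coe] at hp hp'
      simp only [Prod.mk.injEq, Sigma.mk.injEq] at hpp
      obtain ⟨⟨e1, e2⟩, e3, e4⟩ := hpp
      have e2' := eq_of_heq e2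
      have hd0 := h2 p hp
      rw [e4] at e2'
      have e5 : p.1 = p'.1 := by
        have : 0 < fd p' := by rw [← e4]; omega
        exact Nat.eq_of_mul_eq_mul_left this e2'
      have e6 : p.2 = p'.2 := by
        rw [e3, e5] at e1
        omega
      exact Prod.ext e5 e6
  have hcard' : (P.card : ℝ) ≤ (∑ x ∈ range M, ((dif k M H x).card : ℝ)) * (D * (D + 1)) := by
    have : (P.card : ℝ) ≤ ((((range M).sigma fun x => dif k M H x).card * (D * (D + 1)) : ℕ) : ℝ) := by
      exact_mod_cast hcard
    rw [card_sigma] at this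
    push_cast at this
    exact this
  have hDD : (0 : ℝ) < D * (D + 1) := by positivity
  have h6 : c * (M : ℝ) ^ 2 * (D * (D + 1)) ≤
      (∑ x ∈ range M, ((dif k M H x).card : ℝ)) * (D * (D + 1)) := by
    refine le_trans ?_ (hPc.trans hcard')
    rw [hc]
    have e1 : δ / 4 * (δ / (8 * D)) / (D * D * (D + 1)) * (M : ℝ) ^ 2 * (D * (D + 1)) =
        δ / 4 * M * (δ * M / (8 * D)) / D := by
      field_simp
    rw [e1]
    have hD1r : (1 : ℝ) ≤ D := by exact_mod_cast hD1
    exact div_le_self (by positivity) hD1r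
  exact le_of_mul_le_mul_right h6 hDD

/-- **a dense set contains many elements at which many of its progressions start** -/
theorem many_starts (k : ℕ) (δ : ℝ) (hδ : 0 < δ) : ∃ (c : ℝ) (M₀ : ℕ), 0 < c ∧ ∀ M : ℕ, M₀ ≤ M →
    ∀ H : Finset ℕ, H ⊆ range M → δ * M ≤ H.card →
      c * M ≤ ((range M).filter fun x => c * M ≤ (dif k M H x).card).card := by
  classical
  obtain ⟨c, M₀, hc, h⟩ := varnavides k δ hδ
  refine ⟨c / 2, max M₀ 1, by positivity, fun M hM H hH hc' => ?_⟩
  have h1 := h M ((le_max_left _ _).trans hM) H hH hc'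
  have hM1 : 1 ≤ M := (le_max_right _ _).trans hM
  have hM0 : (0 : ℝ) < M := by exact_mod_cast hM1
  obtain ⟨G, hG⟩ : ∃ G : Finset ℕ, G = (range M).filter fun x =>
      c / 2 * M ≤ ((dif k M H x).card : ℝ) := ⟨_, rfl⟩
  rw [← hG]
  have h2 : ∑ x ∈ range M, ((dif k M H x).card : ℝ) ≤ G.card * M + M * (c / 2 * M) := by
    rw [← sum_filter_add_sum_filter_not (range M) (fun x =>
      c / 2 * M ≤ ((dif k M H x).card : ℝ)), ← hG]
    apply add_le_add
    · calc ∑ x ∈ G, ((dif k M H x).card : ℝ) ≤ ∑ _x ∈ G, (M : ℝ) := by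
            refine sum_le_sum fun x _ => ?_
            have : (dif k M H x).card ≤ (Icc 1 M).card := card_le_card (filter_subset _ _)
            rw [Nat.card_Icc, Nat.add_sub_cancel] at this
            exact_mod_cast this
        _ = _ := by rw [sum_const, nsmul_eq_mul]
    · calc _ ≤ ∑ _x ∈ (range M).filter (fun x => ¬ c / 2 * M ≤ ((dif k M H x).card : ℝ)),
            (c / 2 * M) := sum_le_sum fun s hs => (not_le.1 (mem_filter.1 hs).2).le
        _ ≤ M * (c / 2 * M) := by
            rw [sum_const, nsmul_eq_mul]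
            have : ((range M).filter (fun x => ¬ c / 2 * M ≤ ((dif k M H x).card : ℝ))).card ≤
                M := by
              have := card_le_card (filter_subset (fun x =>
                ¬ c / 2 * M ≤ ((dif k M H x).card : ℝ)) (range M))
              rwa [card_range] at this
            gcongr
  have h3 : c / 2 * M * M ≤ G.card * M := by nlinarith
  exact le_of_mul_le_mul_right h3 hM0

end Pool.Agent.K3h46.FP
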